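import Pool.Agent.Helper61.P3.St4

/-!
# Project P3 (MP_cb927e_an), module SNP: many hits which do not persist
-/

set_option autoImplicit false
set_option linter.unusedVariables false

open MeasureTheory Set Filter Topology
open scoped ENNReal RealInnerProductSpace

namespace Pool.Agent.Helper57.P3

open Pool.Agent.Helper61.P3 Pool.Agent.Helper20.RG Pool.Agent.Helper20.EQ
open Pool.Agent.Helper68.LM (Pl BB Bd Av HL ft fm DQ)
open Pool.Agent.Helper68.EP (elt GapP)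

lemma np_card (c : Pl) (φ τ : ℝ → ℝ) (u : ℕ) (η : ℝ) (k : ℤ) (g : Pl → ℝ) (x : Pl) :
    ((NP c φ τ u η k g x).ncard : ℝ) ≤ (2 : ℝ) ^ u := by
  have h1 : NP c φ τ u η k g x ⊆ ((Finset.range (2 ^ u) : Finset ℕ) : Set ℕ) := by
    intro j hj
    have h2 : j < 2 ^ u := hj.1
    simpa using h2
  have h3 := Set.ncard_le_ncard h1 (Finset.finite_toSet _)
  rw [Set.ncard_coe_finset, Finset.card_range] at h3
  exact_mod_cast h3

lemma mt_pos {V : ℝ} (hV : 0 < V) (u n ρ : ℕ) : 0 < mt V u n ρ := by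
  unfold Pool.Agent.Helper61.P3.mt
  positivity

lemma Vs_pos (s : ℕ) : 0 < Vs s := by
  unfold Vs
  positivity

lemma et_pos (ρ : ℕ) : 0 < et ρ := by
  unfold et
  positivity

/-- the numbers -/
lemma num1 (C : ℝ) (hC : 0 ≤ C) (u ρ : ℕ) (m : ℝ) (hρ : 1000 * ρ ≤ u)
    (hm : (2 : ℝ) ^ ((1999 / 2000 : ℝ) * u) ≤ m) :
    C * (2 : ℝ) ^ ((7 / 8 : ℝ) * u) / (m * (et ρ) ^ 2) ≤ 4 * C * (2 : ℝ) ^ (-((u : ℝ) / 10)) := by
  have h2 : (0 : ℝ) < 2 := by norm_num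
  have hm0 : 0 < m := lt_of_lt_of_le (Real.rpow_pos_of_pos h2 _) hm
  have he : (et ρ) ^ 2 = (2 : ℝ) ^ (-(2 * (ρ : ℝ)) - 2) := by
    unfold et
    rw [← Real.rpow_intCast, ← Real.rpow_natCast, ← Real.rpow_mul h2.le]
    congr 1
    push_cast
    ring
  have hpos : 0 < m * (et ρ) ^ 2 := mul_pos hm0 (pow_pos (et_pos ρ) 2)
  rw [div_le_iff₀ hpos]
  have h1 : (2 : ℝ) ^ ((1999 / 2000 : ℝ) * u) * (et ρ) ^ 2 ≤ m * (et ρ) ^ 2 :=
    mul_le_mul_of_nonneg_right hm (sq_nonneg _)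
  have h3 : C * (2 : ℝ) ^ ((7 / 8 : ℝ) * u) ≤
      4 * C * (2 : ℝ) ^ (-((u : ℝ) / 10)) * ((2 : ℝ) ^ ((1999 / 2000 : ℝ) * u) * (et ρ) ^ 2) := by
    rw [he]
    have e1 : 4 * C * (2 : ℝ) ^ (-((u : ℝ) / 10)) * ((2 : ℝ) ^ ((1999 / 2000 : ℝ) * u) *
        (2 : ℝ) ^ (-(2 * (ρ : ℝ)) - 2)) =
        C * (2 : ℝ) ^ (2 + (-((u : ℝ) / 10)) + ((1999 / 2000 : ℝ) * u) + (-(2 * (ρ : ℝ)) - 2)) := by
      rw [Real.rpow_add h2, Real.rpow_add h2, Real.rpow_add h2]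
      have : (2 : ℝ) ^ (2 : ℝ) = 4 := by
        rw [show (2 : ℝ) = ((2 : ℕ) : ℝ) by norm_num, Real.rpow_natCast]
        norm_num
      rw [this]
      ring
    rw [e1]
    apply mul_le_mul_of_nonneg_left _ hC
    apply Real.rpow_le_rpow_of_exponent_le (by norm_num)
    have h5 : (1000 : ℝ) * ρ ≤ u := by exact_mod_cast hρ
    have h6 : (0 : ℝ) ≤ u := Nat.cast_nonneg _
    linarith
  calc C * (2 : ℝ) ^ ((7 / 8 : ℝ) * u) ≤ _ := h3
    _ ≤ 4 * C * (2 : ℝ) ^ (-((u : ℝ) / 10)) * (m * (et ρ) ^ 2) := by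
        apply mul_le_mul_of_nonneg_left h1
        positivity

lemma sum20 : Summable (fun u : ℕ => (2 : ℝ) ^ (-((u : ℝ) / 20))) := by
  have h : (fun u : ℕ => (2 : ℝ) ^ (-((u : ℝ) / 20))) = fun u : ℕ => ((2 : ℝ) ^ (-(1 / 20) : ℝ)) ^ u := by
    funext u
    rw [← Real.rpow_natCast, ← Real.rpow_mul (by norm_num)]
    congr 1
    ring
  rw [h]
  apply summable_geometric_of_lt_one
  · positivity
  · apply Real.rpow_lt_one_of_one_lt_of_neg (by norm_num)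
    norm_num

theorem hSNP (hGDL : Pool.Agent.Helper20.EQ.StGDL) (hRIY : Pool.Agent.Helper61.P3.StRIY)
    (hNUC : Pool.Agent.Helper61.P3.StNUC) (hPES : Pool.Agent.Helper61.P3.StPES) :
    Pool.Agent.Helper61.P3.StSNP := by
  intro φ τ A c hG hA hgap
  obtain ⟨C, hC1, hP⟩ := hPES φ τ A c hG hA hgap
  obtain ⟨U₀, hU2, hN1, hN2, -⟩ := hNUC
  have hC0 : 0 ≤ C := by linarith
  set S : ℝ := ∑' u : ℕ, (2 : ℝ) ^ (-((u : ℝ) / 20)) with hS
  have hS0 : 0 ≤ S := tsum_nonneg (fun u => by positivity)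
  -- the function of RIY
  let X : ℕ → ℕ → ℕ → (Pl → ℝ) → ℝ≥0∞ := fun n ρ u g =>
    if U₀ ≤ u ∧ 10000 * n < u then
      ∑' k : ℤ, volume {x | mt (Vs u) u n ρ / 2 ≤ ((NP c φ τ u (et ρ) k g x).ncard : ℝ)} else 0
  have hX1 : ∀ (n ρ u : ℕ) (g : Pl → ℝ), BB g →
      X n ρ u g ≤ ENNReal.ofReal (4 * C * (2 : ℝ) ^ (-((n : ℝ) + ρ)) * (2 : ℝ) ^ (-((u : ℝ) / 20))) *
        ∫⁻ x, ‖g x‖ₑ ^ 2 := by
    intro n ρ u g hg
    by_cases h : U₀ ≤ u ∧ 10000 * n < u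
    · simp only [X]
      rw [if_pos h]
      by_cases hm : mt (Vs u) u n ρ ≤ (2 : ℝ) ^ (u + 1)
      · obtain ⟨hV1, hV2⟩ := hN2 u u h.1 (by omega)
        obtain ⟨hr, hm2, -, -⟩ := hN1 (Vs u) u n ρ h.1 h.2 hV1 hV2 hm
        refine le_trans (hP u (et ρ) (mt (Vs u) u n ρ / 2) g (le_trans hU2 h.1) (et_pos ρ)
          (half_pos (mt_pos (Vs_pos u) u n ρ)) hg) ?_
        refine mul_le_mul' (ENNReal.ofReal_le_ofReal ?_) le_rfl
        refine le_trans (num1 C hC0 u ρ _ hr hm2) ?_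
        have e1 : 4 * C * (2 : ℝ) ^ (-((n : ℝ) + ρ)) * (2 : ℝ) ^ (-((u : ℝ) / 20)) =
            4 * C * (2 : ℝ) ^ (-((n : ℝ) + ρ) + (-((u : ℝ) / 20))) := by
          rw [Real.rpow_add (by norm_num)]
          ring
        rw [e1]
        apply mul_le_mul_of_nonneg_left _ (by positivity)
        apply Real.rpow_le_rpow_of_exponent_le (by norm_num)
        have h5 : (1000 : ℝ) * ρ ≤ u := by exact_mod_cast hr
        have h6 : (10000 : ℝ) * n ≤ u := by exact_mod_cast h.2.le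
        have h7 : (0 : ℝ) ≤ ρ := Nat.cast_nonneg _
        have h8 : (0 : ℝ) ≤ n := Nat.cast_nonneg _
        linarith
      · have hempty : ∀ k : ℤ, {x | mt (Vs u) u n ρ / 2 ≤ ((NP c φ τ u (et ρ) k g x).ncard : ℝ)} = ∅ := by
          intro k
          apply Set.eq_empty_of_forall_notMem
          intro x hx
          have h1 : mt (Vs u) u n ρ / 2 ≤ ((NP c φ τ u (et ρ) k g x).ncard : ℝ) := hx
          have h2 := np_card c φ τ u (et ρ) k g x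
          rw [pow_succ] at hm
          push Not at hm
          linarith
        simp only [hempty, measure_empty, tsum_zero]
        exact bot_le
    · simp only [X]
      rw [if_neg h]
      exact bot_le
  have hX2 : ∀ (n ρ : ℕ) (g : Pl → ℝ), BB g → (∀ x, 0 ≤ g x ∧ g x ≤ 1) →
      ∑' u : ℕ, X n ρ u g ≤ ENNReal.ofReal (4 * C * (2 : ℝ) ^ (-((n : ℝ) + ρ)) * S) * ∫⁻ x, ‖g x‖ₑ ^ 2 := by
    intro n ρ g hg _
    calc ∑' u : ℕ, X n ρ u g ≤ ∑' u : ℕ,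
          ENNReal.ofReal (4 * C * (2 : ℝ) ^ (-((n : ℝ) + ρ)) * (2 : ℝ) ^ (-((u : ℝ) / 20))) *
            ∫⁻ x, ‖g x‖ₑ ^ 2 := ENNReal.tsum_le_tsum (fun u => hX1 n ρ u g hg)
      _ = (∑' u : ℕ, ENNReal.ofReal (4 * C * (2 : ℝ) ^ (-((n : ℝ) + ρ)) * (2 : ℝ) ^ (-((u : ℝ) / 20)))) *
            ∫⁻ x, ‖g x‖ₑ ^ 2 := ENNReal.tsum_mul_right
      _ = _ := by
          congr 1
          rw [← ENNReal.ofReal_tsum_of_nonneg (fun u => by positivity) (sum20.mul_left _), tsum_mul_left]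
  have hR : ∀ (n ρ : ℕ) (f : Pl → ℝ), BB f → (∀ x, 0 ≤ f x) →
      ∑' l : ℤ, ENNReal.ofReal ((2 : ℝ) ^ (3 * l)) * ∑' u : ℕ, X n ρ u (lev f (l - 1 + n)) ≤
        ENNReal.ofReal (32 * C * S * ((1 / 2 : ℝ) ^ n * (1 / 2 : ℝ) ^ ρ)) *
          ∫⁻ x, ENNReal.ofReal (f x) ^ (3 : ℝ) := by
    intro n ρ f hf hf0
    refine le_trans (hRIY (4 * C * (2 : ℝ) ^ (-((n : ℝ) + ρ)) * S) (X n ρ) (by positivity)
      (hX2 n ρ) f n hf hf0) ?_
    refine mul_le_mul' (ENNReal.ofReal_le_ofReal ?_) le_rfl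
    have e1 : (2 : ℝ) ^ (-((n : ℝ) + ρ)) = (1 / 2 : ℝ) ^ n * (1 / 2 : ℝ) ^ ρ := by
      rw [neg_add, Real.rpow_add (by norm_num), Real.rpow_neg (by norm_num), Real.rpow_neg (by norm_num),
        Real.rpow_natCast, Real.rpow_natCast, one_div, inv_pow, inv_pow]
    rw [e1]
    have e2 : (2 : ℝ) ^ (-(3 * (n : ℤ))) ≤ 1 := by
      apply zpow_le_one_of_nonpos₀ (by norm_num)
      omega
    have e3 : (0 : ℝ) < (2 : ℝ) ^ (-(3 * (n : ℤ))) := by positivity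
    have e4 : 0 ≤ 32 * C * S * ((1 / 2 : ℝ) ^ n * (1 / 2 : ℝ) ^ ρ) := by positivity
    nlinarith
  refine ⟨max 1 (128 * C * S), U₀, le_max_left _ _, ?_⟩
  intro f hf hf0
  -- outer measure
  have hv : ∀ l : ℤ, volume {x | ∃ (k : ℤ) (u n ρ : ℕ), U₀ ≤ u ∧ 10000 * n < u ∧
        mt (Vs u) u n ρ / 2 ≤ ((NP c φ τ u (et ρ) k (lev f (l - 1 + n)) x).ncard : ℝ)} ≤
      ∑' n : ℕ, ∑' ρ : ℕ, ∑' u : ℕ, X n ρ u (lev f (l - 1 + n)) := by
    intro l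
    have hsub : {x | ∃ (k : ℤ) (u n ρ : ℕ), U₀ ≤ u ∧ 10000 * n < u ∧
        mt (Vs u) u n ρ / 2 ≤ ((NP c φ τ u (et ρ) k (lev f (l - 1 + n)) x).ncard : ℝ)} ⊆
        ⋃ n : ℕ, ⋃ ρ : ℕ, ⋃ u : ℕ, ⋃ k : ℤ, {x | (U₀ ≤ u ∧ 10000 * n < u) ∧
          mt (Vs u) u n ρ / 2 ≤ ((NP c φ τ u (et ρ) k (lev f (l - 1 + n)) x).ncard : ℝ)} := by
      rintro x ⟨k, u, n, ρ, h1, h2, h3⟩
      simp only [mem_iUnion, mem_ofPred_eq]
      exact ⟨n, ρ, u, k, ⟨h1, h2⟩, h3⟩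
    refine le_trans (measure_mono hsub) ?_
    refine le_trans (measure_iUnion_le _) (ENNReal.tsum_le_tsum fun n => ?_)
    refine le_trans (measure_iUnion_le _) (ENNReal.tsum_le_tsum fun ρ => ?_)
    refine le_trans (measure_iUnion_le _) (ENNReal.tsum_le_tsum fun u => ?_)
    refine le_trans (measure_iUnion_le _) ?_
    simp only [X]
    by_cases h : U₀ ≤ u ∧ 10000 * n < u
    · rw [if_pos h]
      exact ENNReal.tsum_le_tsum fun k => measure_mono (fun x hx => hx.2)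
    · rw [if_neg h]
      have : ∀ k : ℤ, {x | (U₀ ≤ u ∧ 10000 * n < u) ∧
          mt (Vs u) u n ρ / 2 ≤ ((NP c φ τ u (et ρ) k (lev f (l - 1 + n)) x).ncard : ℝ)} = ∅ := by
        intro k
        apply Set.eq_empty_of_forall_notMem
        intro x hx
        exact h hx.1
      simp only [this, measure_empty, tsum_zero, le_refl]
  calc ∑' l : ℤ, ENNReal.ofReal ((2 : ℝ) ^ (3 * l)) * volume {x | ∃ (k : ℤ) (u n ρ : ℕ), U₀ ≤ u ∧
        10000 * n < u ∧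
        mt (Vs u) u n ρ / 2 ≤ ((NP c φ τ u (et ρ) k (lev f (l - 1 + n)) x).ncard : ℝ)}
      ≤ ∑' l : ℤ, ENNReal.ofReal ((2 : ℝ) ^ (3 * l)) *
          ∑' n : ℕ, ∑' ρ : ℕ, ∑' u : ℕ, X n ρ u (lev f (l - 1 + n)) := by
        gcongr with l
        exact hv l
    _ = ∑' l : ℤ, ∑' n : ℕ, ∑' ρ : ℕ, ENNReal.ofReal ((2 : ℝ) ^ (3 * l)) *
          ∑' u : ℕ, X n ρ u (lev f (l - 1 + n)) := by
        congr 1
        funext l
        rw [← ENNReal.tsum_mul_left]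
        congr 1
        funext n
        rw [← ENNReal.tsum_mul_left]
    _ = ∑' n : ℕ, ∑' l : ℤ, ∑' ρ : ℕ, ENNReal.ofReal ((2 : ℝ) ^ (3 * l)) *
          ∑' u : ℕ, X n ρ u (lev f (l - 1 + n)) := ENNReal.tsum_comm
    _ = ∑' n : ℕ, ∑' ρ : ℕ, ∑' l : ℤ, ENNReal.ofReal ((2 : ℝ) ^ (3 * l)) *
          ∑' u : ℕ, X n ρ u (lev f (l - 1 + n)) := by
        congr 1
        funext n
        exact ENNReal.tsum_comm
    _ ≤ ∑' n : ℕ, ∑' ρ : ℕ, ENNReal.ofReal (32 * C * S * ((1 / 2 : ℝ) ^ n * (1 / 2 : ℝ) ^ ρ)) *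
          ∫⁻ x, ENNReal.ofReal (f x) ^ (3 : ℝ) :=
        ENNReal.tsum_le_tsum fun n => ENNReal.tsum_le_tsum fun ρ => hR n ρ f hf hf0
    _ = (∑' n : ℕ, ∑' ρ : ℕ, ENNReal.ofReal (32 * C * S * ((1 / 2 : ℝ) ^ n * (1 / 2 : ℝ) ^ ρ))) *
          ∫⁻ x, ENNReal.ofReal (f x) ^ (3 : ℝ) := by
        rw [← ENNReal.tsum_mul_right]
        congr 1
        funext n
        rw [← ENNReal.tsum_mul_right]
    _ = ENNReal.ofReal (128 * C * S) * ∫⁻ x, ENNReal.ofReal (f x) ^ (3 : ℝ) := by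
        congr 1
        have hgeo : Summable (fun n : ℕ => (1 / 2 : ℝ) ^ n) := summable_geometric_two
        have hin : ∀ n : ℕ, ∑' ρ : ℕ, ENNReal.ofReal (32 * C * S * ((1 / 2 : ℝ) ^ n * (1 / 2 : ℝ) ^ ρ)) =
            ENNReal.ofReal (64 * C * S * (1 / 2 : ℝ) ^ n) := by
          intro n
          have : ∀ ρ : ℕ, 32 * C * S * ((1 / 2 : ℝ) ^ n * (1 / 2 : ℝ) ^ ρ) =
              (32 * C * S * (1 / 2 : ℝ) ^ n) * (1 / 2 : ℝ) ^ ρ := fun ρ => by ring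
          simp only [this]
          rw [← ENNReal.ofReal_tsum_of_nonneg (fun ρ => by positivity) (hgeo.mul_left _), tsum_mul_left,
            tsum_geometric_two]
          congr 1
          ring
        simp only [hin]
        rw [← ENNReal.ofReal_tsum_of_nonneg (fun ρ => by positivity) (hgeo.mul_left _), tsum_mul_left,
            tsum_geometric_two]
        congr 1
        ring
    _ ≤ ENNReal.ofReal (max 1 (128 * C * S)) * ∫⁻ x, ENNReal.ofReal (f x) ^ (3 : ℝ) := by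
        gcongr
        exact le_max_right _ _

end Pool.Agent.Helper57.P3
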